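import Pool.Agent.U574.FC.Main

/-!
# MP_4eb3f9_an: `(dd^c u)² = λ ⊗ δ₀` has no solution in `𝓕(𝔻 × 𝔻)`

The answer to Q1 is negative, for every positive multiple of the measure (so for every normalisation
of `dd^c`).

Sketch of the proof. Suppose `φ ∈ 𝓕` has `(dd^c φ)² = c λ ⊗ δ₀`, write `p = ‖z‖² - 1`, `P = c ∫ (-p) dλ`.
* Smooth psh approximants `v ≥ φ - e` from above (glued from regularisations of the `u_j`) satisfy
  `∫ (-p) (dd^c v)² ≤ P` (up to small errors), and the energy `∫ |∂_w v|²` is bounded by `2 P`; hence the mean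
  of `-v` over the logarithmic annulus `e^{-3T/2} ≤ ‖w‖ ≤ e^{-T}` is `O(√T)`, and by a pigeonhole argument over
  disjoint scales it is `≤ ε √T` for all approximants at once, for arbitrarily large `T`.
* If `V ≥ S p` is psh and negative then the mass of `(dd^c V)²` on `‖w‖ < e^{-T}` is `O(S² / T)`.
* Choose `T = K S²`. For `V = max(v, S p)` almost all the mass `P` of `-p` sits on `{v ≤ S p}`, away from
  `w = 0` at scale `e^{-T}`, so `∫_{‖w‖ > ρ} (-V) (dd^c V)² ≥ S P / 8`.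
* Filling: since the mean of `-V / S` on the annulus is tiny, Siegel's lemma gives a polynomial with small
  norm at scale `‖w‖ ≤ ρ` (for a `ρ` in the annulus) and with `∫ -log|F(z, 0)|` small, so `V / S` can be
  replaced near `w = 0` by a psh function `ψ` with `V/S ≤ ψ ≤ 0`, `ψ = V/S` for `‖w‖ ≥ ρ` and
  `∫ -ψ(z, 0) dλ ≤ 34 τ`.
* Domination: `∫_{‖w‖ > ρ} (-V) (dd^c V)² ≤ ∫ (-S ψ) (dd^c φ)² ≤ 34 c τ S`, a contradiction for small `τ`.
-/

set_option autoImplicit false

open MeasureTheory Metric Set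

namespace Pool.Agent.Results.MP_4eb3f9_an.NoSolution
open Pool.Agent.H805R2

/-- the unit bidisc `𝔻 × 𝔻` in `ℂ²` -/
def Bidisc : Set (Cn 2) := {x | ‖x 0‖ < 1 ∧ ‖x 1‖ < 1}

/-- the measure `λ ⊗ δ₀`: Lebesgue measure on the unit disc in the first coordinate, the Dirac mass at
`0` in the second, as a measure on `ℂ²` -/
noncomputable def lebDirac : Measure (Cn 2) :=
  (((volume : Measure ℂ).restrict (ball 0 1)).prod (Measure.dirac (0 : ℂ))).map
    fun p : ℂ × ℂ => (!₂[p.1, p.2] : Cn 2)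

lemma lebDirac_eq : lebDirac = Pool.Agent.U574.FC.mu0 := by
  unfold lebDirac Pool.Agent.U574.FC.mu0
  rw [Measure.prod_dirac, Measure.map_map]
  · congr 1
    funext z
    ext i
    fin_cases i <;> simp
  · fun_prop
  · fun_prop

/-- For every `c > 0` there is no `φ ∈ 𝓕(𝔻 × 𝔻)` with `(dd^c φ)² = c · (λ ⊗ δ₀)`. -/
theorem result (c : ℝ) (hc : 0 < c) :
    ¬ ∃ φ : Cn 2 → EReal, IsCegrellF Bidisc φ (ENNReal.ofReal c • lebDirac) := by
  rintro ⟨φ, hφ⟩
  rw [lebDirac_eq] at hφ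
  exact Pool.Agent.U574.FC.main_neg hc φ hφ

end Pool.Agent.Results.MP_4eb3f9_an.NoSolution
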